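import Pool.Agent.Helper61.TQ.Core

set_option autoImplicit false

/-! Module SYS: the system of the two queries assumption for SAT. -/

namespace Pool.Agent.Helper61.TQ

open Pool.Agent.Helper58 Pool.Agent.Helper53.CL Pool.Agent.Helper52.Grid

lemma sys_prefix (u z : W) : u <+: z ↔ u ++ z.drop u.length = z := by
  constructor
  · rintro ⟨t, rfl⟩
    rw [List.drop_left]
  · intro h
    exact ⟨_, h⟩

theorem st_SYS (hSATNP : ST_SATNP) (hSATHARD : ST_SATHARD) (hXOR : ST_XOR) (hLEW : ST_LEW)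
    (hPP : ST_PP) : ST_SYS := by
  intro htq
  obtain ⟨b, χ, pb, pχ, hbχ⟩ := hXOR htq
  obtain ⟨V0, B0, pV0, pB0, hs0, hc0⟩ := hSATNP
  obtain ⟨hle, -⟩ := hLEW
  obtain ⟨ple, -⟩ := hPP
  have pm : PTf (fun x : W => 2 * B0 x) := by fun_prop
  let V : W → W → Bool := fun x z => decide (z.length = 2 * B0 x) && V0 x (dc z)
  have pV : PTf (fun x : W × W => V x.1 x.2) := by
    have h1 : PTf (fun x : W × W => V0 x.1 (dc x.2)) := by
      have h2 : PTf (fun x : W × W => dc x.2) := ptf_dc (PTf.snd PTf.id)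
      exact PTf.comp (g := fun x : W × W => V0 x.1 x.2) pV0 (PTf.pair (PTf.fst PTf.id) h2)
    have h3 : PTf (fun x : W × W => B0 x.1) := PTf.comp pB0 (PTf.fst PTf.id)
    have h4 : PTf (fun x : W × W => decide (x.2.length = 2 * B0 x.1)) := by fun_prop
    exact PTf.and h4 h1
  have hV : ∀ x z, V x z = true → z.length = 2 * B0 x ∧ x ∈ SAT := by
    intro x z h
    have h' : decide (z.length = 2 * B0 x) = true ∧ V0 x (dc z) = true :=
      (Bool.and_eq_true_iff (x := decide (z.length = 2 * B0 x)) (y := V0 x (dc z))).1 h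
    exact ⟨of_decide_eq_true h'.1, hs0 _ _ h'.2⟩
  have hK : ∀ x ∈ SAT, ∃ z : W, V x z = true := by
    intro x hx
    obtain ⟨w, hw, hv⟩ := hc0 x hx
    refine ⟨ec (B0 x) w, ?_⟩
    show (decide ((ec (B0 x) w).length = 2 * B0 x) && V0 x (dc (ec (B0 x) w))) = true
    rw [ec_length hw, dc_ec, hv]
    simp
  -- the language `cut`
  have hNcut : NPf (fun x : W × W => ∃ z : W, leW z x.2 = true ∧ V x.1 z = true) := by
    refine ⟨fun x z => leW z x.2 && V x.1 z, fun x => 2 * B0 x.1, ?_, ?_, ?_, ?_⟩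
    · have h1 : PTf (fun x : (W × W) × W => leW x.2 x.1.2) :=
        PTf.comp (g := fun x : W × W => leW x.1 x.2) ple
          (PTf.pair (PTf.snd PTf.id) (PTf.snd (PTf.fst PTf.id)))
      have h2 : PTf (fun x : (W × W) × W => V x.1.1 x.2) :=
        PTf.comp (g := fun x : W × W => V x.1 x.2) pV
          (PTf.pair (PTf.fst (PTf.fst PTf.id)) (PTf.snd PTf.id))
      fun_prop
    · exact PTf.comp (g := fun x : W => 2 * B0 x) pm (PTf.fst PTf.id)
    · intro a w h
      have h' : leW w a.2 = true ∧ V a.1 w = true := by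
        simpa only [Bool.and_eq_true] using h
      exact ⟨w, h'⟩
    · rintro a ⟨z, hz, hv⟩
      refine ⟨z, ?_, ?_⟩
      · show z.length ≤ 2 * B0 a.1
        exact (hV _ _ hv).1.le
      · show (leW z a.2 && V a.1 z) = true
        rw [hz, hv]; rfl
  obtain ⟨fc, pfc, hfc⟩ := hSATHARD _ hNcut
  -- the language `node`
  have hNnode : NPf (fun x : W × W => ∃ z : W, x.2 <+: z ∧ V x.1 z = true) := by
    refine ⟨fun x z => decide (x.2 ++ z.drop x.2.length = z) && V x.1 z, fun x => 2 * B0 x.1,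
      ?_, ?_, ?_, ?_⟩
    · have h1 : PTf (fun x : (W × W) × W => decide (x.1.2 ++ x.2.drop x.1.2.length = x.2)) := by
        fun_prop
      have h2 : PTf (fun x : (W × W) × W => V x.1.1 x.2) :=
        PTf.comp (g := fun x : W × W => V x.1 x.2) pV
          (PTf.pair (PTf.fst (PTf.fst PTf.id)) (PTf.snd PTf.id))
      exact PTf.and h1 h2
    · exact PTf.comp (g := fun x : W => 2 * B0 x) pm (PTf.fst PTf.id)
    · intro a w h
      have h' : decide (a.2 ++ w.drop a.2.length = w) = true ∧ V a.1 w = true := by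
        simpa only [Bool.and_eq_true] using h
      exact ⟨w, (sys_prefix _ _).2 (of_decide_eq_true h'.1), h'.2⟩
    · rintro a ⟨z, hz, hv⟩
      refine ⟨z, ?_, ?_⟩
      · show z.length ≤ 2 * B0 a.1
        exact (hV _ _ hv).1.le
      · show (decide (a.2 ++ z.drop a.2.length = z) && V a.1 z) = true
        rw [hv, decide_eq_true ((sys_prefix _ _).1 hz)]; rfl
  obtain ⟨fn, pfn, hfn⟩ := hSATHARD _ hNnode
  refine ⟨{ K := SAT, V := V, m := fun x => 2 * B0 x, b := b, χ := χ,
            cut := fun ρ c => fc (ρ, c), node := fun X u => fn (X, u),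
            hV := hV, hK := hK, hχ := hbχ, hcut := ?_, hnode := ?_,
            pV := pV, pm := pm, pb := pb, pχ := pχ, pcut := pfc, pnode := pfn,
            hard := fun {α} [Enc α] L hL => hSATHARD L hL }, rfl⟩
  · intro ρ c hc
    have h := hfc (ρ, c)
    refine h.symm.trans ?_
    constructor
    · rintro ⟨z, hz, hv⟩
      exact ⟨z, (hle z c ((hV _ _ hv).1.trans hc.symm)).1 hz, hv⟩
    · rintro ⟨z, hz, hv⟩
      exact ⟨z, (hle z c ((hV _ _ hv).1.trans hc.symm)).2 hz, hv⟩
  · intro X u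
    exact (hfn (X, u)).symm

end Pool.Agent.Helper61.TQ
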